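import Mathlib

namespace Pool.Agent.Results.MP_dec24c_co.BadPairs

open Relation

universe u

variable {V : Type u} {G : SimpleGraph V}

/-- A ray: a one-way infinite path `p 0, p 1, p 2, …` of distinct vertices. -/
structure IsRay (G : SimpleGraph V) (p : ℕ → V) : Prop where
  inj : Function.Injective p
  adj : ∀ n, G.Adj (p n) (p (n + 1))

/-- A ray is geodesic if, for all `i ≤ j`, its subpath from `p i` to `p j` (which has length
`j - i`) is a shortest path of `G`. -/
def IsGeodesicRay (G : SimpleGraph V) (p : ℕ → V) : Prop :=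
  IsRay G p ∧ ∀ i j, i ≤ j → G.dist (p i) (p j) = j - i

/-- A geodesic `W`-ray: a geodesic ray whose initial vertex lies in `W`. -/
def IsGeodesicWRay (G : SimpleGraph V) (W : Set V) (p : ℕ → V) : Prop :=
  IsGeodesicRay G p ∧ p 0 ∈ W

/-- In `G_W` the edge `u v` is directed `u → v`: some geodesic `W`-ray contains both `u` and `v`
and every geodesic `W`-ray containing both traverses the edge from `u` to `v`. -/
def Directed (G : SimpleGraph V) (W : Set V) (u v : V) : Prop :=
  G.Adj u v ∧
  (∃ p, IsGeodesicWRay G W p ∧ u ∈ Set.range p ∧ v ∈ Set.range p) ∧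
  ∀ p, IsGeodesicWRay G W p → u ∈ Set.range p → v ∈ Set.range p → ∃ n, p n = u ∧ p (n + 1) = v

/-- The edge `u v` may be traversed from `u` to `v` in `G_W`: it is directed `u → v` or
undirected. -/
def Step (G : SimpleGraph V) (W : Set V) (u v : V) : Prop :=
  G.Adj u v ∧ (Directed G W u v ∨ (¬ Directed G W u v ∧ ¬ Directed G W v u))

/-- `G_W` has a path from `u` to `v`: distinct vertices `u = x 0, x 1, …, x k = v`, consecutive ones
joined by an edge that may be traversed forwards. -/
def HasPath (G : SimpleGraph V) (W : Set V) (u v : V) : Prop :=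
  ∃ (k : ℕ) (x : ℕ → V), x 0 = u ∧ x k = v ∧ (∀ i j, i ≤ k → j ≤ k → x i = x j → i = j) ∧
    ∀ i < k, Step G W (x i) (x (i + 1))

/-- A bad pair of `G_W`. -/
def BadPair (G : SimpleGraph V) (W : Set V) (u v : V) : Prop :=
  u ≠ v ∧ ¬ HasPath G W u v ∧ ¬ HasPath G W v u

/-- `w` strongly resolves `u` and `v`. -/
def StronglyResolves (G : SimpleGraph V) (w u v : V) : Prop :=
  G.dist w v = G.dist w u + G.dist u v ∨ G.dist w u = G.dist w v + G.dist v u

/-- Strong resolving sets. -/
def IsStrongResolvingSet (G : SimpleGraph V) (S : Set V) : Prop :=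
  ∀ u v, u ≠ v → ∃ w ∈ S, StronglyResolves G w u v

/-! ### Basic facts -/

theorem hasPath_of_reach {W : Set V} {u v : V} (h : ReflTransGen (Step G W) u v) :
    HasPath G W u v := by
  classical
  have hex : ∃ k : ℕ, ∃ x : ℕ → V, x 0 = u ∧ x k = v ∧ ∀ i < k, Step G W (x i) (x (i + 1)) := by
    induction h with
    | refl => exact ⟨0, fun _ => u, rfl, rfl, by simp⟩
    | @tail b c _ hbc ih =>
      obtain ⟨k, x, h0, hk, hs⟩ := ih
      refine ⟨k + 1, fun n => if n ≤ k then x n else c, by simp [h0], by simp, ?_⟩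
      intro i hi
      rcases Nat.lt_or_ge i k with h1 | h1
      · have : i + 1 ≤ k := h1
        simp only [h1.le, if_true, this]
        exact hs i h1
      · have : i = k := by omega
        subst this
        simp [hk, hbc]
  obtain ⟨x, h0, hk, hs⟩ := Nat.find_spec hex
  set k := Nat.find hex with hkdef
  refine ⟨k, x, h0, hk, ?_, hs⟩
  have key : ∀ i j, i < j → j ≤ k → x i ≠ x j := by
    intro i j hij hjk he
    have hlt : k - (j - i) < k := by omega
    apply Nat.find_min hex hlt
    refine ⟨fun n => if n ≤ i then x n else x (n + (j - i)), by simp [h0], ?_, ?_⟩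
    · by_cases hc : k - (j - i) ≤ i
      · have hjk' : j = k := by omega
        have : k - (j - i) = i := by omega
        simp only [this, le_refl, if_true]
        rw [he, hjk', hk]
      · simp only [hc, if_false]
        rw [show k - (j - i) + (j - i) = k by omega, hk]
    · intro n hn
      rcases Nat.lt_trichotomy n i with h1 | h1 | h1
      · have : n + 1 ≤ i := h1
        simp only [h1.le, if_true, this]
        exact hs n (by omega)
      · subst h1
        have : ¬ (n + 1 ≤ n) := by omega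
        simp only [le_refl, if_true, this, if_false]
        rw [he, show n + 1 + (j - n) = j + 1 by omega]
        exact hs j (by omega)
      · have h2 : ¬ (n ≤ i) := by omega
        have h3 : ¬ (n + 1 ≤ i) := by omega
        simp only [h2, h3, if_false]
        rw [show n + 1 + (j - i) = n + (j - i) + 1 by omega]
        exact hs _ (by omega)
  intro i j hi hj he
  by_contra hne
  rcases Nat.lt_or_gt_of_ne hne with h1 | h1
  · exact key i j h1 hj he
  · exact key j i h1 hi he.symm

theorem step_of_not_dir {W : Set V} {u v : V} (h : G.Adj u v) (h' : ¬ Directed G W v u) :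
    Step G W u v := by
  by_cases hd : Directed G W u v
  · exact ⟨h, Or.inl hd⟩
  · exact ⟨h, Or.inr ⟨hd, h'⟩⟩

/-- forward steps of geodesic `W`-rays -/
def FR (G : SimpleGraph V) (W : Set V) (a b : V) : Prop :=
  ∃ p, IsGeodesicWRay G W p ∧ ∃ n, p n = a ∧ p (n + 1) = b

theorem FR.step {W : Set V} {a b : V} (h : FR G W a b) : Step G W a b := by
  obtain ⟨p, hp, n, rfl, rfl⟩ := h
  apply step_of_not_dir (hp.1.1.adj n)
  intro hd
  obtain ⟨m, h1, h2⟩ := hd.2.2 p hp ⟨n + 1, rfl⟩ ⟨n, rfl⟩
  have e1 := hp.1.1.inj h1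
  have e2 := hp.1.1.inj h2
  omega

theorem FR.mono {W W' : Set V} (hW : W ⊆ W') {a b : V} (h : FR G W a b) : FR G W' a b := by
  obtain ⟨p, hp, n, hn⟩ := h
  exact ⟨p, ⟨hp.1, hW hp.2⟩, n, hn⟩

theorem reach_mono {W W' : Set V} (hW : W ⊆ W') {a b : V} (h : ReflTransGen (FR G W) a b) :
    ReflTransGen (FR G W') a b :=
  ReflTransGen.mono (fun _ _ h => FR.mono hW h) a b h

theorem reach_step {W : Set V} {a b : V} (h : ReflTransGen (FR G W) a b) :
    ReflTransGen (Step G W) a b :=
  ReflTransGen.mono (fun _ _ h => FR.step h) a b h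

theorem step_of_offray {W : Set V} {a b : V} (hab : G.Adj a b)
    (h : ∀ p, IsGeodesicWRay G W p → a ∉ Set.range p) : Step G W a b ∧ Step G W b a := by
  constructor
  · apply step_of_not_dir hab
    rintro ⟨_, ⟨p, hp, _, ha⟩, _⟩
    exact h p hp ha
  · apply step_of_not_dir hab.symm
    rintro ⟨_, ⟨p, hp, ha, _⟩, _⟩
    exact h p hp ha

theorem shift_ray {p : ℕ → V} (hp : IsGeodesicRay G p) (j : ℕ) :
    IsGeodesicRay G (fun n => p (n + j)) := by
  refine ⟨⟨fun a b h => ?_, fun n => ?_⟩, fun a b h => ?_⟩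
  · have := hp.1.inj h
    omega
  · have := hp.1.adj (n + j)
    rwa [show n + 1 + j = n + j + 1 by omega]
  · rw [hp.2 (a + j) (b + j) (by omega)]
    omega

theorem ray_reach {W : Set V} {p : ℕ → V} (hp : IsGeodesicRay G p) {j a b : ℕ} (hj : p j ∈ W)
    (hja : j ≤ a) (hab : a ≤ b) : ReflTransGen (FR G W) (p a) (p b) := by
  induction b, hab using Nat.le_induction with
  | base => exact ReflTransGen.refl
  | succ n hn ih =>
    refine ih.tail ⟨fun m => p (m + j), ⟨shift_ray hp j, by simpa using hj⟩, n - j, ?_, ?_⟩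
    · simp only []
      rw [show n - j + j = n by omega]
    · simp only []
      rw [show n - j + 1 + j = n + 1 by omega]

/-- `x ⇒ y`: some geodesic ray starting at `x` passes through `y`. -/
def Sees (G : SimpleGraph V) (x y : V) : Prop :=
  ∃ p, IsGeodesicRay G p ∧ p 0 = x ∧ y ∈ Set.range p

theorem sees_of_ray {p : ℕ → V} (hp : IsGeodesicRay G p) {a b : ℕ} (hab : a ≤ b) :
    Sees G (p a) (p b) :=
  ⟨fun n => p (n + a), shift_ray hp a, by simp, b - a, by simp only []; congr 1; omega⟩

theorem Sees.reach {W : Set V} {x y : V} (hx : x ∈ W) (h : Sees G x y) :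
    ReflTransGen (FR G W) x y := by
  obtain ⟨p, hp, rfl, n, rfl⟩ := h
  exact ray_reach hp (j := 0) hx (le_refl _) (Nat.zero_le _)

/-! ### Distances -/

theorem dist_le_of_steps (hG : G.Connected) {x : ℕ → V} {L : ℕ}
    (hx : ∀ n < L, G.Adj (x n) (x (n + 1))) {i j : ℕ} (hij : i ≤ j) (hj : j ≤ L) :
    G.dist (x i) (x j) ≤ j - i := by
  induction j, hij using Nat.le_induction with
  | base => simp
  | succ n hn ih =>
    have h1 := ih (by omega)
    have h2 : G.dist (x n) (x (n + 1)) = 1 := SimpleGraph.dist_eq_one_iff_adj.mpr (hx n (by omega))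
    have h3 := hG.dist_triangle (u := x i) (v := x n) (w := x (n + 1))
    omega

theorem geodesicRay_of (hG : G.Connected) {p : ℕ → V} {w : V}
    (hadj : ∀ n, G.Adj (p n) (p (n + 1))) (hd : ∀ n, G.dist w (p n) = n) :
    IsGeodesicRay G p := by
  refine ⟨⟨fun a b h => ?_, hadj⟩, fun i j hij => ?_⟩
  · have := hd a
    rw [h, hd b] at this
    exact this.symm
  · have h1 := dist_le_of_steps hG (x := p) (L := j) (fun n _ => hadj n) hij (le_refl _)
    have h3 := hG.dist_triangle (u := w) (v := p i) (w := p j)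
    rw [hd, hd] at h3
    omega

theorem exists_geodesic (hG : G.Connected) (a b : V) :
    ∃ x : ℕ → V, x 0 = a ∧ x (G.dist a b) = b ∧ (∀ n < G.dist a b, G.Adj (x n) (x (n + 1))) := by
  obtain ⟨q, hq⟩ := hG.exists_walk_length_eq_dist a b
  refine ⟨q.getVert, q.getVert_zero, by rw [← hq]; exact q.getVert_length, fun n hn => ?_⟩
  rw [← hq] at hn
  exact q.adj_getVert_succ hn

/-- a path of length `d(w,v)` from `w` to `v` has its `n`-th vertex at distance `n` from `w`. -/
theorem dist_of_geodesic (hG : G.Connected) {x : ℕ → V} {w v : V} (h0 : x 0 = w)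
    (hL : x (G.dist w v) = v) (hx : ∀ n < G.dist w v, G.Adj (x n) (x (n + 1))) {n : ℕ}
    (hn : n ≤ G.dist w v) : G.dist w (x n) = n := by
  have h1 := dist_le_of_steps hG hx (Nat.zero_le n) hn
  have h2 := dist_le_of_steps hG hx hn (le_refl _)
  have h3 := hG.dist_triangle (u := w) (v := x n) (w := v)
  rw [h0] at h1
  rw [hL] at h2
  omega

/-- concatenation of two sequences -/
def cat (a : ℕ) (f g : ℕ → V) (n : ℕ) : V := if n ≤ a then f n else g (n - a)

theorem cat_le {a n : ℕ} (f g : ℕ → V) (h : n ≤ a) : cat a f g n = f n := by simp [cat, h]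

theorem cat_ge {a n : ℕ} {f g : ℕ → V} (hfg : f a = g 0) (h : a ≤ n) :
    cat a f g n = g (n - a) := by
  rcases Nat.lt_or_ge a n with h1 | h1
  · simp [cat, Nat.not_le.mpr h1]
  · have : n = a := by omega
    subst this
    simp [cat, hfg]

theorem cat_adj {f g : ℕ → V} {a n : ℕ} (hfg : f a = g 0) (hf : n < a → G.Adj (f n) (f (n + 1)))
    (hg : a ≤ n → G.Adj (g (n - a)) (g (n - a + 1))) :
    G.Adj (cat a f g n) (cat a f g (n + 1)) := by
  rcases Nat.lt_or_ge n a with h1 | h1
  · rw [cat_le f g h1.le, cat_le f g h1]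
    exact hf h1
  · rw [cat_ge hfg h1, cat_ge hfg (by omega), show n + 1 - a = n - a + 1 by omega]
    exact hg h1

/-- Beyond radius `M` geodesics from `w` extend to geodesic rays. -/
theorem exists_ray (hG : G.Connected) {w : V} {M : ℕ}
    (hM : ∀ v, M < G.dist w v → ∃ y, G.Adj v y ∧ G.dist w y = G.dist w v + 1)
    {u v : V} (hv : M < G.dist w v) (huv : G.dist w v = G.dist w u + G.dist u v) :
    ∃ p, IsGeodesicRay G p ∧ p 0 = w ∧ p (G.dist w u) = u ∧ p (G.dist w v) = v ∧
      ∀ n, G.dist w (p n) = n := by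
  classical
  obtain ⟨x, hx0, hx1, hx2⟩ := exists_geodesic hG w u
  obtain ⟨y, hy0, hy1, hy2⟩ := exists_geodesic hG u v
  choose! nx hnx using hM
  let z : ℕ → V := fun n => nx^[n] v
  have hz : ∀ n, G.dist w (z n) = G.dist w v + n := by
    intro n
    induction n with
    | zero => rfl
    | succ n ih =>
      have : z (n + 1) = nx (z n) := Function.iterate_succ_apply' nx n v
      rw [this, (hnx (z n) (by omega)).2, ih]
      omega
  have hzadj : ∀ n, G.Adj (z n) (z (n + 1)) := by
    intro n
    have : z (n + 1) = nx (z n) := Function.iterate_succ_apply' nx n v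
    rw [this]
    exact (hnx (z n) (by rw [hz]; omega)).1
  set a := G.dist w u with ha
  set b := G.dist u v with hb
  have hxy : x a = y 0 := by rw [hx1, hy0]
  let q := cat a x y
  have hq0 : q 0 = w := by
    show cat a x y 0 = w
    rw [cat_le _ _ (Nat.zero_le _), hx0]
  have hqa : q a = u := by
    show cat a x y a = u
    rw [cat_le _ _ (le_refl _), hx1]
  have hqL : q (G.dist w v) = v := by
    show cat a x y (G.dist w v) = v
    rw [cat_ge hxy (by omega), huv, Nat.add_sub_cancel_left, hy1]
  have hqadj : ∀ n < G.dist w v, G.Adj (q n) (q (n + 1)) := by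
    intro n hn
    exact cat_adj hxy (fun h => hx2 n h) (fun h => hy2 _ (by omega))
  have hqz : q (G.dist w v) = z 0 := hqL
  refine ⟨cat (G.dist w v) q z, ?_, ?_, ?_, ?_, ?_⟩
  · refine geodesicRay_of (w := w) hG (fun n => cat_adj hqz (hqadj n) (fun _ => hzadj _)) ?_
    intro n
    rcases Nat.le_total n (G.dist w v) with h1 | h1
    · rw [cat_le _ _ h1]
      exact dist_of_geodesic hG hq0 hqL hqadj h1
    · rw [cat_ge hqz h1, hz]
      omega
  · rw [cat_le _ _ (Nat.zero_le _), hq0]
  · rw [cat_le _ _ (by omega), hqa]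
  · rw [cat_le _ _ (le_refl _), hqL]
  · intro n
    rcases Nat.le_total n (G.dist w v) with h1 | h1
    · rw [cat_le _ _ h1]
      exact dist_of_geodesic hG hq0 hqL hqadj h1
    · rw [cat_ge hqz h1, hz]
      omega

theorem lm_dist (hG : G.Connected) {w v v' : V} (hv : ∀ y, G.Adj v y → G.dist w y ≤ G.dist w v)
    (hne : v ≠ v') : G.dist w v' + 1 ≤ G.dist w v + G.dist v v' := by
  obtain ⟨x, hx0, hx1, hx2⟩ := exists_geodesic hG v v'
  have hpos : 0 < G.dist v v' := hG.pos_dist_of_ne hne
  have h1 := hx2 0 hpos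
  rw [hx0] at h1
  have h2 := hv _ h1
  have h3 := dist_le_of_steps hG hx2 (i := 1) (j := G.dist v v') hpos (le_refl _)
  rw [hx1] at h3
  have h4 := hG.dist_triangle (u := w) (v := x (0 + 1)) (w := v')
  simp only [zero_add] at h2 h4
  omega

/-- Only finitely many vertices are local maxima of `dist w`; hence beyond some radius
every vertex has a neighbour farther from `w`. -/
theorem exists_bound (hG : G.Connected) {S : Set V} (hS : S.Finite)
    (hres : IsStrongResolvingSet G S) (w : V) :
    ∃ M, ∀ v, M < G.dist w v → ∃ y, G.Adj v y ∧ G.dist w y = G.dist w v + 1 := by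
  classical
  have := hS.to_subtype
  let A : Set V := {v | ∀ y, G.Adj v y → G.dist w y ≤ G.dist w v}
  have hA : A.Finite := by
    by_contra hinf
    have hinf : A.Infinite := hinf
    let g : V → (S → ℤ) := fun v w' => (G.dist (w' : V) v : ℤ) - G.dist w v
    let t : Set (S → ℤ) :=
      Set.pi Set.univ (fun w' => Set.Icc (-(G.dist w (w' : V) : ℤ)) (G.dist w (w' : V)))
    have ht : t.Finite := Set.Finite.pi (fun _ => Set.finite_Icc _ _)
    have hmaps : Set.MapsTo g A t := by
      intro v _ w' _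
      have h1 := hG.dist_triangle (u := w) (v := (w' : V)) (w := v)
      have h2 := hG.dist_triangle (u := (w' : V)) (v := w) (w := v)
      rw [G.dist_comm (u := (w' : V)) (v := w)] at h2
      simp only [g, Set.mem_Icc]
      constructor <;> omega
    obtain ⟨v, hv, v', hv', hne, heq⟩ := hinf.exists_ne_map_eq_of_mapsTo hmaps ht
    obtain ⟨w', hw', hr⟩ := hres v v' hne
    have h1 := lm_dist hG hv hne
    have h2 := lm_dist hG hv' hne.symm
    have h3 := congrFun heq ⟨w', hw'⟩
    simp only [g] at h3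
    rw [G.dist_comm (u := v') (v := v)] at h2
    rcases hr with hr | hr
    · omega
    · rw [G.dist_comm (u := v') (v := v)] at hr
      omega
  obtain ⟨M, hM⟩ := (hA.image (G.dist w)).bddAbove
  refine ⟨M, fun v hv => ?_⟩
  have hvA : v ∉ A := fun h => by
    have := hM ⟨v, h, rfl⟩
    omega
  simp only [A, Set.mem_ofPred_eq, not_forall, not_le] at hvA
  obtain ⟨y, hy, hlt⟩ := hvA
  refine ⟨y, hy, ?_⟩
  have h1 := hG.dist_triangle (u := w) (v := v) (w := y)
  rw [SimpleGraph.dist_eq_one_iff_adj.mpr hy] at h1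
  omega

theorem ball_finite (hG : G.Connected) {S : Set V} (hS : S.Finite)
    (hres : IsStrongResolvingSet G S) (w0 : V) (n : ℕ) : {v | G.dist w0 v ≤ n}.Finite := by
  classical
  have := hS.to_subtype
  let f : V → (S → ℕ) := fun v w => G.dist (w : V) v
  let t : Set (S → ℕ) := Set.pi Set.univ (fun w => Set.Iic (G.dist (w : V) w0 + n))
  have ht : t.Finite := Set.Finite.pi (fun _ => Set.finite_Iic _)
  refine Set.Finite.of_injOn (f := f) (t := t) ?_ ?_ ht
  · intro v hv w _
    simp only [Set.mem_ofPred_eq] at hv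
    have h1 := hG.dist_triangle (u := (w : V)) (v := w0) (w := v)
    simp only [f, Set.mem_Iic]
    omega
  · intro v _ v' _ heq
    by_contra hne
    obtain ⟨w, hw, hr⟩ := hres v v' hne
    have h3 := congrFun heq ⟨w, hw⟩
    simp only [f] at h3
    have hpos : 0 < G.dist v v' := hG.pos_dist_of_ne hne
    rw [StronglyResolves, G.dist_comm (u := v') (v := v)] at hr
    omega

theorem exists_eq (hG : G.Connected) {p : ℕ → V} (hadj : ∀ n, G.Adj (p n) (p (n + 1))) {w0 : V}
    {r a b : ℕ} (hab : a ≤ b) (h1 : G.dist w0 (p a) ≤ r) (h2 : r ≤ G.dist w0 (p b)) :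
    ∃ m, a ≤ m ∧ m ≤ b ∧ G.dist w0 (p m) = r := by
  induction b, hab using Nat.le_induction with
  | base => exact ⟨a, le_refl _, le_refl _, by omega⟩
  | succ n hn ih =>
    by_cases h : r ≤ G.dist w0 (p n)
    · obtain ⟨m, hm1, hm2, hm3⟩ := ih h
      exact ⟨m, hm1, by omega, hm3⟩
    · refine ⟨n + 1, by omega, le_refl _, ?_⟩
      have h3 := hG.dist_triangle (u := w0) (v := p n) (w := p (n + 1))
      rw [SimpleGraph.dist_eq_one_iff_adj.mpr (hadj n)] at h3
      omega

/-- chains of `⇒` are realised by ray steps from a finite set lying on the chain -/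
theorem chain_set {x y : V} (h : ReflTransGen (Sees G) x y) :
    ∃ W0 : Set V, W0.Finite ∧ x ∈ W0 ∧
      ∀ z ∈ W0, ReflTransGen (FR G W0) x z ∧ ReflTransGen (FR G W0) z y := by
  induction h with
  | refl =>
    refine ⟨{x}, Set.finite_singleton x, rfl, ?_⟩
    rintro z rfl
    exact ⟨ReflTransGen.refl, ReflTransGen.refl⟩
  | @tail b c _ hbc ih =>
    obtain ⟨W0, hf, hx, hz⟩ := ih
    refine ⟨insert b W0, hf.insert b, Or.inr hx, ?_⟩
    have hsub : W0 ⊆ insert b W0 := Set.subset_insert b W0
    have hb : ReflTransGen (FR G (insert b W0)) b c := hbc.reach (Set.mem_insert b W0)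
    rintro z (rfl | hzW)
    · exact ⟨reach_mono hsub (hz x hx).2, hb⟩
    · exact ⟨reach_mono hsub (hz z hzW).1, (reach_mono hsub (hz z hzW).2).trans hb⟩

/-- If `G` has a finite strong resolving set then some finite nonempty `W` has the property
that any two vertices are joined by a walk of `G_W` in one of the two directions. -/
theorem exists_good (hG : G.Connected) {S : Set V} (hS : S.Finite)
    (hres : IsStrongResolvingSet G S) {w0 : V} (hw0 : w0 ∈ S) :
    ∃ W : Set V, W.Finite ∧ W.Nonempty ∧ ∀ u v, u ≠ v →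
      ReflTransGen (Step G W) u v ∨ ReflTransGen (Step G W) v u := by
  classical
  obtain ⟨c, hc⟩ : ∃ c, ∀ w ∈ S, G.dist w0 w ≤ c := by
    obtain ⟨c, hc⟩ := (hS.image (G.dist w0)).bddAbove
    exact ⟨c, fun w hw => hc ⟨w, hw, rfl⟩⟩
  choose Mw hMw using fun w => exists_bound hG hS hres w
  obtain ⟨M, hM⟩ : ∃ M, ∀ w ∈ S, Mw w ≤ M := by
    obtain ⟨M, hM⟩ := (hS.image Mw).bddAbove
    exact ⟨M, fun w hw => hM ⟨w, hw, rfl⟩⟩
  obtain ⟨r0, hr0⟩ : ∃ r0, r0 = M + c + 1 := ⟨_, rfl⟩
  have ray : ∀ w ∈ S, ∀ u v, r0 ≤ G.dist w0 v → G.dist w v = G.dist w u + G.dist u v →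
      ∃ p, IsGeodesicRay G p ∧ p 0 = w ∧ p (G.dist w u) = u ∧ p (G.dist w v) = v ∧
        ∀ n, G.dist w (p n) = n := by
    intro w hw u v hv huv
    refine exists_ray hG (hMw w) ?_ huv
    have h1 := hG.dist_triangle (u := w0) (v := w) (w := v)
    have h2 := hc w hw
    have h3 := hM w hw
    omega
  have sees_far : ∀ z y, r0 ≤ G.dist w0 y → G.dist w0 z + 2 * c < G.dist w0 y → Sees G z y := by
    intro z y hy hzy
    have hne : z ≠ y := by
      rintro rfl
      omega
    obtain ⟨w, hw, hr | hr⟩ := hres z y hne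
    · obtain ⟨p, hp, _, h1, h2, _⟩ := ray w hw z y hy hr
      rw [← h1, ← h2]
      have hle : G.dist w z ≤ G.dist w y := by omega
      have := sees_of_ray hp hle
      rw [h1, h2] at this ⊢
      exact this
    · exfalso
      have h1 := hG.dist_triangle (u := w0) (v := w) (w := y)
      have h2 := hc w hw
      have h3 := hG.dist_triangle (u := w) (v := w0) (w := z)
      rw [G.dist_comm (u := w) (v := w0)] at h3
      omega
  have hball := ball_finite hG hS hres w0
  obtain ⟨R, hR⟩ : ∃ R, R = r0 + 2 * c + 1 := ⟨_, rfl⟩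
  by_cases hbig : ∃ v, R ≤ G.dist w0 v
  swap
  · -- no geodesic rays at all from `w0`
    push Not at hbig
    refine ⟨{w0}, Set.finite_singleton _, ⟨w0, rfl⟩, fun u v _ => Or.inl ?_⟩
    have hno : ∀ p, ¬ IsGeodesicWRay G {w0} p := by
      rintro p ⟨hp, h0⟩
      have h1 := hp.2 0 R (Nat.zero_le _)
      rw [Set.mem_singleton_iff] at h0
      rw [h0] at h1
      have h2 := hbig (p R)
      omega
    obtain ⟨x, hx0, hx1, hx2⟩ := exists_geodesic hG u v
    have : ∀ n ≤ G.dist u v, ReflTransGen (Step G {w0}) u (x n) := by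
      intro n hn
      induction n with
      | zero => rw [hx0]
      | succ n ih =>
        refine (ih (by omega)).tail ?_
        exact (step_of_offray (hx2 n (by omega)) (fun p hp => absurd hp (hno p))).1
    have := this _ (le_refl _)
    rwa [hx1] at this
  obtain ⟨vb, hvb⟩ := hbig
  by_cases hI : ∃ x, ∀ y, ReflTransGen (Sees G) x y → r0 ≤ G.dist w0 y
  · -- Case I
    obtain ⟨x, hx⟩ := hI
    obtain ⟨C, hC⟩ : ∃ C : Set V, C = {y | ReflTransGen (Sees G) x y} := ⟨_, rfl⟩
    have hclosed : ∀ y z, y ∈ C → Sees G y z → z ∈ C := by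
      intro y z hy hz
      rw [hC] at hy ⊢
      exact ReflTransGen.tail hy hz
    have hfar : ∀ y ∈ C, r0 ≤ G.dist w0 y := by
      intro y hy
      rw [hC] at hy
      exact hx y hy
    have hxC : x ∈ C := by
      rw [hC]
      exact ReflTransGen.refl
    have hcof : ∀ y, y ∉ C → G.dist w0 y ≤ r0 + G.dist w0 x + 2 * c := by
      intro y hy
      by_contra hcon
      exact hy (hclosed x y hxC (sees_far x y (by omega) (by omega)))
    obtain ⟨W, hW⟩ : ∃ W : Set V, W = insert x {y | y ∈ C ∧ ∃ z, z ∉ C ∧ G.Adj z y} := ⟨_, rfl⟩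
    have hWfin : W.Finite := by
      rw [hW]
      refine Set.Finite.insert _ ((hball (r0 + G.dist w0 x + 2 * c + 1)).subset ?_)
      rintro y ⟨_, z, hz, hzy⟩
      have h1 := hcof z hz
      have h3 := hG.dist_triangle (u := w0) (v := z) (w := y)
      rw [SimpleGraph.dist_eq_one_iff_adj.mpr hzy] at h3
      simp only [Set.mem_ofPred_eq]
      omega
    have hWC : ∀ y ∈ W, y ∈ C := by
      intro y hy
      rw [hW] at hy
      rcases hy with rfl | hy
      · exact hxC
      · exact hy.1
    have hrayC : ∀ p, IsGeodesicWRay G W p → ∀ n, p n ∈ C := by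
      intro p hp n
      exact hclosed (p 0) (p n) (hWC _ hp.2) (sees_of_ray hp.1 (Nat.zero_le n))
    have hstep : ∀ a b, a ∉ C → G.Adj a b → Step G W a b ∧ Step G W b a := by
      intro a b ha hab
      refine step_of_offray hab ?_
      rintro p hp ⟨n, rfl⟩
      exact ha (hrayC p hp n)
    have hbd : ∀ a b, a ∉ C → b ∈ C → G.Adj a b → b ∈ W := by
      intro a b ha hb hab
      rw [hW]
      exact Or.inr ⟨hb, a, ha, hab⟩
    have hin : ∀ u, u ∉ C → ReflTransGen (Step G W) w0 u ∧ ReflTransGen (Step G W) u w0 := by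
      intro u hu
      obtain ⟨q, hq0, hq1, hq2⟩ := exists_geodesic hG w0 u
      have hqC : ∀ n ≤ G.dist w0 u, q n ∉ C := by
        intro n hn hqn
        have h1 := dist_of_geodesic hG hq0 hq1 hq2 hn
        by_cases hr : r0 ≤ G.dist w0 u
        · have h2 := dist_le_of_steps hG hq2 hn (le_refl _)
          rw [hq1] at h2
          have h3 := hG.dist_triangle (u := w0) (v := q n) (w := u)
          obtain ⟨p, hp, _, h4, h5, _⟩ := ray w0 hw0 (q n) u hr (by omega)
          have h6 := sees_of_ray hp (a := G.dist w0 (q n)) (b := G.dist w0 u) (by omega)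
          rw [h4, h5] at h6
          exact hu (hclosed _ _ hqn h6)
        · have := hfar _ hqn
          omega
      have : ∀ n ≤ G.dist w0 u, ReflTransGen (Step G W) w0 (q n) ∧
          ReflTransGen (Step G W) (q n) w0 := by
        intro n hn
        induction n with
        | zero => rw [hq0]; exact ⟨ReflTransGen.refl, ReflTransGen.refl⟩
        | succ n ih =>
          obtain ⟨h1, h2⟩ := ih (by omega)
          obtain ⟨h3, h4⟩ := hstep _ _ (hqC n (by omega)) (hq2 n (by omega))
          exact ⟨h1.tail h3, ReflTransGen.head h4 h2⟩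
      have := this _ (le_refl _)
      rwa [hq1] at this
    have hcross : ∀ p : ℕ → V, IsGeodesicRay G p → ∀ a, p 0 ∉ C → p a ∈ C →
        ∃ j, j < a ∧ p j ∉ C ∧ p (j + 1) ∈ W := by
      intro p hp a h0 ha
      have hex : ∃ j, p j ∈ C := ⟨a, ha⟩
      have h1 := Nat.find_spec hex
      have h2 : Nat.find hex ≤ a := Nat.find_min' hex ha
      have h3 : Nat.find hex ≠ 0 := by
        intro h
        rw [h] at h1
        exact h0 h1
      have h4 : p (Nat.find hex - 1) ∉ C := Nat.find_min hex (by omega)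
      refine ⟨Nat.find hex - 1, by omega, h4, ?_⟩
      have h5 : Nat.find hex - 1 + 1 = Nat.find hex := by omega
      refine hbd _ _ h4 ?_ (hp.1.adj _)
      rw [h5]
      exact h1
    have hSC : ∀ w ∈ S, w ∉ C := by
      intro w hw hwC
      have h1 := hc w hw
      have h2 := hfar w hwC
      omega
    have hmix : ∀ u v, u ∉ C → v ∈ C → ReflTransGen (Step G W) u v := by
      intro u v hu hv
      obtain ⟨p, hp, h0, _, h1, _⟩ := ray w0 hw0 w0 v (hfar v hv) (by simp)
      obtain ⟨j, hj, hj1, hj2⟩ := hcross p hp (G.dist w0 v) (by rw [h0]; exact hSC w0 hw0)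
        (by rw [h1]; exact hv)
      have h3 := ray_reach hp hj2 (le_refl _) (show j + 1 ≤ G.dist w0 v from hj)
      rw [h1] at h3
      exact ((hin u hu).2.trans (hin _ hj1).1).trans
        (ReflTransGen.head (hstep _ _ hj1 (hp.1.adj j)).1 (reach_step h3))
    have hout : ∀ w ∈ S, ∀ u v, u ∈ C → v ∈ C → G.dist w v = G.dist w u + G.dist u v →
        ReflTransGen (Step G W) u v := by
      intro w hw u v hu hv huv
      obtain ⟨p, hp, h0, h1, h2, _⟩ := ray w hw u v (hfar v hv) huv
      obtain ⟨j, hj, hj1, hj2⟩ := hcross p hp (G.dist w u) (by rw [h0]; exact hSC w hw)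
        (by rw [h1]; exact hu)
      have h3 := ray_reach hp hj2 (show j + 1 ≤ G.dist w u from hj)
        (show G.dist w u ≤ G.dist w v by omega)
      rw [h1, h2] at h3
      exact reach_step h3
    refine ⟨W, hWfin, ⟨x, by rw [hW]; exact Set.mem_insert _ _⟩, fun u v huv => ?_⟩
    by_cases hu : u ∈ C <;> by_cases hv : v ∈ C
    · obtain ⟨w, hw, hr | hr⟩ := hres u v huv
      · exact Or.inl (hout w hw u v hu hv hr)
      · exact Or.inr (hout w hw v u hv hu hr)
    · exact Or.inr (hmix v u hv hu)
    · exact Or.inl (hmix u v hu hv)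
    · exact Or.inl ((hin u hu).2.trans (hin v hv).1)
  · -- Case II
    push Not at hI
    have hss : ∀ x y, R ≤ G.dist w0 y → ReflTransGen (Sees G) x y := by
      intro x y hy
      obtain ⟨z, hz1, hz2⟩ := hI x
      exact hz1.tail (sees_far z y (by omega) (by omega))
    obtain ⟨Sg, hSg⟩ : ∃ Sg : Set V, Sg = {y | G.dist w0 y = R} := ⟨_, rfl⟩
    have hSgmem : ∀ y, y ∈ Sg ↔ G.dist w0 y = R := by
      intro y
      rw [hSg]
      rfl
    have hSgfin : Sg.Finite := (hball R).subset (fun y hy => ((hSgmem y).mp hy).le)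
    obtain ⟨pb, hpb, hpb0, _, hpb1, hpbd⟩ := ray w0 hw0 w0 vb (by omega) (by simp)
    obtain ⟨y1, hy1⟩ : ∃ y1, y1 = pb R := ⟨_, rfl⟩
    have hy1S : y1 ∈ Sg := by rw [hSgmem, hy1]; exact hpbd R
    have hSR : ∀ y ∈ Sg, R ≤ G.dist w0 y := fun y hy => ((hSgmem y).mp hy).ge
    have hA : ∀ s : V, ∃ W0 : Set V, s ∈ Sg → W0.Finite ∧ y1 ∈ W0 ∧
        ∀ z ∈ W0, ReflTransGen (FR G W0) y1 z ∧ ReflTransGen (FR G W0) z s := by
      intro s
      by_cases hs : s ∈ Sg
      · obtain ⟨W0, h⟩ := chain_set (hss y1 s (hSR s hs))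
        exact ⟨W0, fun _ => h⟩
      · exact ⟨∅, fun h => absurd h hs⟩
    have hB : ∀ s : V, ∃ W0 : Set V, s ∈ Sg → W0.Finite ∧ s ∈ W0 ∧
        ∀ z ∈ W0, ReflTransGen (FR G W0) s z ∧ ReflTransGen (FR G W0) z y1 := by
      intro s
      by_cases hs : s ∈ Sg
      · obtain ⟨W0, h⟩ := chain_set (hss s y1 (hSR y1 hy1S))
        exact ⟨W0, fun _ => h⟩
      · exact ⟨∅, fun h => absurd h hs⟩
    choose A hA using hA
    choose B hB using hB
    obtain ⟨W, hW⟩ : ∃ W : Set V, W = ⋃ s ∈ Sg, (A s ∪ B s) := ⟨_, rfl⟩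
    have hWfin : W.Finite := by
      rw [hW]
      exact hSgfin.biUnion (fun s hs => (hA s hs).1.union (hB s hs).1)
    have hAW : ∀ s ∈ Sg, A s ⊆ W := by
      intro s hs z hz
      rw [hW]
      exact Set.mem_biUnion hs (Or.inl hz)
    have hBW : ∀ s ∈ Sg, B s ⊆ W := by
      intro s hs z hz
      rw [hW]
      exact Set.mem_biUnion hs (Or.inr hz)
    have hSW : ∀ s ∈ Sg, s ∈ W := fun s hs => hBW s hs (hB s hs).2.1
    have hSgood : ∀ s ∈ Sg, ReflTransGen (FR G W) y1 s ∧ ReflTransGen (FR G W) s y1 := by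
      intro s hs
      exact ⟨reach_mono (hAW s hs) ((hA s hs).2.2 y1 (hA s hs).2.1).2,
        reach_mono (hBW s hs) ((hB s hs).2.2 s (hB s hs).2.1).2⟩
    have hWgood : ∀ z ∈ W, ReflTransGen (FR G W) y1 z ∧ ReflTransGen (FR G W) z y1 := by
      intro z hz
      rw [hW] at hz
      simp only [Set.mem_iUnion, exists_prop] at hz
      obtain ⟨s, hs, hz | hz⟩ := hz
      · have h1 := (hA s hs).2.2 z hz
        exact ⟨reach_mono (hAW s hs) h1.1, (reach_mono (hAW s hs) h1.2).trans (hSgood s hs).2⟩
      · have h1 := (hB s hs).2.2 z hz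
        exact ⟨(hSgood s hs).1.trans (reach_mono (hBW s hs) h1.1), reach_mono (hBW s hs) h1.2⟩
    have hT : ∀ p, IsGeodesicWRay G W p → ∀ n, G.dist w0 (p n) ≤ R →
        ReflTransGen (Step G W) y1 (p n) ∧ ReflTransGen (Step G W) (p n) y1 := by
      intro p hp n hn
      constructor
      · exact reach_step ((hWgood _ hp.2).1.trans
          (ray_reach hp.1 (j := 0) hp.2 (le_refl _) (Nat.zero_le n)))
      · have h1 : R ≤ G.dist w0 (p (n + (R + G.dist w0 (p n)))) := by
          have h2 := hp.1.2 n (n + (R + G.dist w0 (p n))) (by omega)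
          have h3 := hG.dist_triangle (u := p n) (v := w0) (w := p (n + (R + G.dist w0 (p n))))
          rw [G.dist_comm (u := p n) (v := w0)] at h3
          omega
        obtain ⟨m, hm1, _, hm3⟩ := exists_eq hG hp.1.1.adj
          (show n ≤ n + (R + G.dist w0 (p n)) by omega) hn h1
        exact reach_step ((ray_reach hp.1 (j := 0) hp.2 (Nat.zero_le n) hm1).trans
          (hSgood _ ((hSgmem _).mpr hm3)).2)
    have hadj : ∀ a b, G.Adj a b → G.dist w0 b ≤ R →
        (ReflTransGen (Step G W) y1 a ∧ ReflTransGen (Step G W) a y1) →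
        (ReflTransGen (Step G W) y1 b ∧ ReflTransGen (Step G W) b y1) := by
      intro a b hab hb hgood
      by_cases hon : ∃ p, IsGeodesicWRay G W p ∧ b ∈ Set.range p
      · obtain ⟨p, hp, n, rfl⟩ := hon
        exact hT p hp n hb
      · push Not at hon
        obtain ⟨h1, h2⟩ := step_of_offray hab.symm hon
        exact ⟨hgood.1.tail h2, ReflTransGen.head h1 hgood.2⟩
    have hw0good : ReflTransGen (Step G W) y1 w0 ∧ ReflTransGen (Step G W) w0 y1 := by
      have : ∀ k ≤ R, ReflTransGen (Step G W) y1 (pb (R - k)) ∧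
          ReflTransGen (Step G W) (pb (R - k)) y1 := by
        intro k hk
        induction k with
        | zero =>
          rw [Nat.sub_zero, ← hy1]
          exact ⟨ReflTransGen.refl, ReflTransGen.refl⟩
        | succ k ih =>
          refine hadj (pb (R - k)) (pb (R - (k + 1))) ?_ ?_ (ih (by omega))
          · have := hpb.1.adj (R - (k + 1))
            rw [show R - (k + 1) + 1 = R - k by omega] at this
            exact this.symm
          · rw [hpbd]
            omega
      have := this R (le_refl _)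
      rwa [Nat.sub_self, hpb0] at this
    have hin : ∀ u, G.dist w0 u ≤ R →
        ReflTransGen (Step G W) y1 u ∧ ReflTransGen (Step G W) u y1 := by
      intro u hu
      obtain ⟨q, hq0, hq1, hq2⟩ := exists_geodesic hG w0 u
      have : ∀ n ≤ G.dist w0 u, ReflTransGen (Step G W) y1 (q n) ∧
          ReflTransGen (Step G W) (q n) y1 := by
        intro n hn
        induction n with
        | zero => rw [hq0]; exact hw0good
        | succ n ih =>
          refine hadj _ _ (hq2 n (by omega)) ?_ (ih (by omega))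
          rw [dist_of_geodesic hG hq0 hq1 hq2 hn]
          omega
      have := this _ (le_refl _)
      rwa [hq1] at this
    have hmix : ∀ u v, G.dist w0 u ≤ R → R < G.dist w0 v → ReflTransGen (Step G W) u v := by
      intro u v hu hv
      obtain ⟨p, hp, h0, _, h1, hd⟩ := ray w0 hw0 w0 v (by omega) (by simp)
      have hpR : p R ∈ Sg := (hSgmem _).mpr (hd R)
      have h3 := ray_reach hp (hSW _ hpR) (le_refl _) (show R ≤ G.dist w0 v from hv.le)
      rw [h1] at h3
      exact (hin u hu).2.trans ((reach_step (hSgood _ hpR).1).trans (reach_step h3))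
    have hout : ∀ w ∈ S, ∀ u v, R < G.dist w0 u → R < G.dist w0 v →
        G.dist w v = G.dist w u + G.dist u v → ReflTransGen (Step G W) u v := by
      intro w hw u v hu hv huv
      obtain ⟨p, hp, h0, h1, h2, _⟩ := ray w hw u v (by omega) huv
      obtain ⟨m, _, hm2, hm3⟩ := exists_eq hG hp.1.adj (w0 := w0) (r := R)
        (Nat.zero_le (G.dist w u)) (by rw [h0]; have := hc w hw; omega) (by rw [h1]; exact hu.le)
      have h3 := ray_reach hp (hSW _ ((hSgmem _).mpr hm3)) hm2
        (show G.dist w u ≤ G.dist w v by omega)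
      rw [h1, h2] at h3
      exact reach_step h3
    refine ⟨W, hWfin, ⟨y1, hSW y1 hy1S⟩, fun u v huv => ?_⟩
    rcases Nat.lt_or_ge R (G.dist w0 u) with hu | hu <;>
      rcases Nat.lt_or_ge R (G.dist w0 v) with hv | hv
    · obtain ⟨w, hw, hr | hr⟩ := hres u v huv
      · exact Or.inl (hout w hw u v hu hv hr)
      · exact Or.inr (hout w hw v u hv hu hr)
    · exact Or.inr (hmix v u hv hu)
    · exact Or.inl (hmix u v hu hv)
    · exact Or.inl ((hin u hu).2.trans (hin v hv).1)

/-- If `G` is connected and `G_W` has a bad pair for every nonempty finite `W`, then no finite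
set is a strong resolving set, i.e. the strong metric dimension of `G` is infinite. -/
theorem result {V : Type u} (G : SimpleGraph V) (hG : G.Connected)
    (hbad : ∀ W : Set V, W.Finite → W.Nonempty → ∃ u v, BadPair G W u v) :
    ∀ S : Set V, S.Finite → ¬ IsStrongResolvingSet G S := by
  intro S hS hres
  obtain ⟨w0⟩ := hG.nonempty
  have hres' : IsStrongResolvingSet G (insert w0 S) := by
    intro u v huv
    obtain ⟨w, hw, h⟩ := hres u v huv
    exact ⟨w, Or.inr hw, h⟩
  obtain ⟨W, hf, hne, hW⟩ := exists_good hG (hS.insert w0) hres' (Set.mem_insert w0 S)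
  obtain ⟨u, v, huv, h1, h2⟩ := hbad W hf hne
  rcases hW u v huv with h | h
  · exact h1 (hasPath_of_reach h)
  · exact h2 (hasPath_of_reach h)

end Pool.Agent.Results.MP_dec24c_co.BadPairs
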